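import Mathlib
import Pool.Agent.H9.Sey

set_option autoImplicit false

namespace Pool.Agent.Results.MP_c7ba3e_co.Seven

theorem result : ¬ Pool.Agent.H9.Sey.PropS 7 := Pool.Agent.H9.Sey.main

end Pool.Agent.Results.MP_c7ba3e_co.Seven
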